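import Mathlib

set_option autoImplicit false

namespace Pool.Agent.Results.MP_0f9f23_al.Counter
open MvPolynomial

/-- the stable image `⋂_{k ≥ 1} φ^k(A)` of an algebra endomorphism -/
def stableImage {K A : Type*} [Field K] [CommRing A] [Algebra K A] (φ : A →ₐ[K] A) : Subalgebra K A :=
  ⨅ k : ℕ, (φ ^ (k + 1)).range

/-- `R` is a retract: some algebra map `A → R` is the identity on `R` -/
def IsRetract {K A : Type*} [Field K] [CommRing A] [Algebra K A] (R : Subalgebra K A) : Prop :=
  ∃ π : A →ₐ[K] R, ∀ r : R, π r = r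

variable (K : Type*) [Field K] (m : ℕ)

/-- `x ↦ x`, `y ↦ (1 + x) y`, `z ↦ z + (x + 2) y²`, the other variables fixed -/
noncomputable def phi : MvPolynomial (Fin (m + 3)) K →ₐ[K] MvPolynomial (Fin (m + 3)) K :=
  aeval fun i => if i = 1 then (1 + X 0) * X 1 else if i = 2 then X 2 + (X 0 + 2) * X 1 ^ 2 else X i

noncomputable def sig : MvPolynomial (Fin (m + 3)) K →ₐ[K] MvPolynomial (Fin (m + 3)) K :=
  aeval fun i => if i = 1 then -X 1 else X i

noncomputable def ev : MvPolynomial (Fin (m + 3)) K →ₐ[K] MvPolynomial (Fin (m + 3)) K :=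
  aeval fun i => if i = 0 then 0 else X i

variable {K m}

lemma n01 : (0 : Fin (m + 3)) ≠ 1 := by simp [Fin.ext_iff]
lemma n02 : (0 : Fin (m + 3)) ≠ 2 := by simp [Fin.ext_iff, Nat.mod_eq_of_lt (show 2 < m + 3 by omega)]
lemma n21 : (2 : Fin (m + 3)) ≠ 1 := by simp [Fin.ext_iff, Nat.mod_eq_of_lt (show 2 < m + 3 by omega)]

lemma phi0 : phi K m (X 0) = X 0 := by simp [phi, n01, n02]
lemma phi1 : phi K m (X 1) = (1 + X 0) * X 1 := by simp [phi]
lemma phi2 : phi K m (X 2) = X 2 + (X 0 + 2) * X 1 ^ 2 := by simp [phi, n21]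
lemma sig0 : sig K m (X 0) = X 0 := by simp [sig, n01]
lemma sig1 : sig K m (X 1) = -X 1 := by simp [sig]
lemma sig2 : sig K m (X 2) = X 2 := by simp [sig, n21]

lemma comm (g : MvPolynomial (Fin (m + 3)) K) : sig K m (phi K m g) = phi K m (sig K m g) := by
  have : (sig K m).comp (phi K m) = (phi K m).comp (sig K m) := by
    refine MvPolynomial.algHom_ext fun i => ?_
    simp only [AlgHom.comp_apply]
    by_cases h1 : i = 1
    · subst h1; simp [phi1, sig0, sig1]
    · by_cases h2 : i = 2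
      · subst h2; simp [phi2, sig0, sig1, sig2, map_ofNat]
      · simp [phi, sig, h1, h2]
  exact DFunLike.congr_fun this g

lemma comm' (g : MvPolynomial (Fin (m + 3)) K) : sig K m (ev K m g) = ev K m (sig K m g) := by
  have : (sig K m).comp (ev K m) = (ev K m).comp (sig K m) := by
    refine MvPolynomial.algHom_ext fun i => ?_
    simp only [AlgHom.comp_apply]
    by_cases h1 : i = 1
    · subst h1; simp [sig, ev, n01.symm]
    · by_cases h2 : i = 0
      · subst h2; simp [sig, ev, n01]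
      · simp [ev, sig, h1, h2]
  exact DFunLike.congr_fun this g

lemma dvd_sub (g : MvPolynomial (Fin (m + 3)) K) : X 1 ∣ g - sig K m g := by
  induction g using MvPolynomial.induction_on with
  | C a => simp [sig]
  | add p q hp hq => convert dvd_add hp hq using 1; rw [map_add]; ring
  | mul_X p i hp =>
    have : (X 1 : MvPolynomial (Fin (m + 3)) K) ∣ X i - sig K m (X i) := by
      by_cases h : i = 1 <;> simp [sig, h]
    convert dvd_add (hp.mul_right (X i)) (this.mul_left (sig K m p)) using 1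
    rw [map_mul]; ring

lemma dvd_pow (k : ℕ) (g : MvPolynomial (Fin (m + 3)) K) :
    (1 + X 0) ^ k * X 1 ∣ (phi K m ^ k) g - sig K m ((phi K m ^ k) g) := by
  induction k with
  | zero => simpa using dvd_sub g
  | succ k ih =>
    have := map_dvd (phi K m) ih
    rw [pow_succ' (phi K m), AlgHom.mul_apply, comm, ← map_sub]
    convert this using 1
    simp [phi0, phi1]; ring

lemma inv {h : MvPolynomial (Fin (m + 3)) K} (hh : h ∈ stableImage (phi K m)) : sig K m h = h := by
  by_contra hne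
  have hu : ¬ IsUnit (1 + X 0 : MvPolynomial (Fin (m + 3)) K) := fun hu => by
    simpa using hu.map (eval fun _ => (-1 : K))
  obtain ⟨k, hk⟩ := FiniteMultiplicity.of_not_isUnit hu (sub_ne_zero.2 (Ne.symm hne))
  obtain ⟨g, rfl⟩ := Algebra.mem_iInf.1 hh k
  exact hk ((dvd_mul_right _ _).trans (dvd_pow (k + 1) g))

lemma fix_mem {h : MvPolynomial (Fin (m + 3)) K} (hh : phi K m h = h) : h ∈ stableImage (phi K m) := by
  refine Algebra.mem_iInf.2 fun k => ⟨h, ?_⟩
  show (phi K m ^ (k + 1)) h = h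
  induction k + 1 with
  | zero => rfl
  | succ k ih => rw [pow_succ, AlgHom.mul_apply, hh, ih]

theorem result (K : Type*) [Field K] [CharZero K] (n : ℕ) (hn : 3 ≤ n) :
    ∃ φ : MvPolynomial (Fin n) K →ₐ[K] MvPolynomial (Fin n) K, ¬ IsRetract (stableImage φ) := by
  obtain ⟨m, rfl⟩ : ∃ m, n = m + 3 := ⟨n - 3, by omega⟩
  refine ⟨phi K m, fun ⟨π, hπ⟩ => ?_⟩
  have h0 := congrArg Subtype.val (hπ ⟨X 0, fix_mem phi0⟩)
  have h1 := congrArg Subtype.val (hπ ⟨X 0 * X 2 - X 1 ^ 2, fix_mem (by
    simp only [map_sub, map_mul, map_pow, phi0, phi1, phi2]; ring)⟩)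
  simp only [map_sub, map_mul, map_pow, AddSubgroupClass.coe_sub, MulMemClass.coe_mul,
    SubmonoidClass.coe_pow] at h0 h1
  rw [h0] at h1
  have h2 := congrArg (ev K m) h1
  have e0 : ev K m (X 0) = 0 := by simp [ev]
  have e1 : ev K m (X 1) = X 1 := by simp [ev, n01.symm]
  simp only [map_sub, map_mul, map_pow, e0, e1, zero_mul, zero_sub, neg_inj] at h2
  have h3 : sig K m (ev K m (π (X 1))) = ev K m (π (X 1)) := by rw [comm', inv (π (X 1)).2]
  have h4 : (2 : MvPolynomial (Fin (m + 3)) K) * X 1 = 0 := by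
    rcases sq_eq_sq_iff_eq_or_eq_neg.1 h2 with h | h
    · rw [h, sig1] at h3; linear_combination -h3
    · rw [h, map_neg, sig1] at h3; linear_combination h3
  simpa using congrArg (eval fun _ => (1 : K)) h4

end Pool.Agent.Results.MP_0f9f23_al.Counter
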